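import Pool.Agent.W420.NS.FStm

set_option autoImplicit false

namespace Pool.Agent.W140.NS

open Pool.Agent.W420.NS

/-- replacement of one colour -/
def fy (y : ℕ × ℕ) : ℕ × ℕ := (bif isT y.1 then 1 else 4, y.2)

theorem ty_eq (a : St) : ty a = a.map fy := rfl

theorem isT_fy (y : ℕ × ℕ) : isT (fy y).1 = isT y.1 := by
  unfold fy
  cases h : isT y.1
  · rfl
  · rfl

theorem fy_snd (y : ℕ × ℕ) : (fy y).2 = y.2 := rfl

theorem tys_eq : ∀ (k x m : ℕ), cons k x m → tys k m = ty (unz k x m) := by
  intro k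
  induction k with
  | zero => intro x m _; rfl
  | succ k ih =>
    intro x m h
    have h1 : isT (x % 8) = !(Nat.beq (m % 8) 0) :=
      h (x % 8, m % 8) (List.mem_cons_self)
    have h2 : cons k (x / 8) (m / 8) := fun y hy => h y (List.mem_cons_of_mem _ hy)
    have h3 := ih (x / 8) (m / 8) h2
    change (bif Nat.beq (m % 8) 0 then 4 else 1, m % 8) :: tys k (m / 8) =
      (bif isT (x % 8) then 1 else 4, m % 8) :: ty (unz k (x / 8) (m / 8))
    rw [h3, h1]
    cases Nat.beq (m % 8) 0 <;> rfl

theorem prs_ty (s : ℕ) (a b : St) : prs s (ty a) (ty b) = prs s a b := by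
  unfold prs
  rw [ty_eq, ty_eq, ← List.map_take, ← List.map_take, List.zip_map, List.filter_map, List.map_map]
  congr 1
  · apply List.filter_congr
    intro x _
    exact isT_fy x.1

theorem mrg_ty (s : ℕ) (a b : St) : mrg s (ty a) (ty b) = ty (mrg s a b) := by
  unfold mrg
  rw [prs_ty, ty_eq, ty_eq, ty_eq, ← List.map_drop, ← List.map_drop, List.map_append,
    List.map_map, List.map_map, List.map_map, List.map_map]
  rfl

theorem opn_ty (s : ℕ) (a b : St) :
    opnB s (ty a) (ty b) (mrg s (ty a) (ty b)) = true ↔ Opn s a b := by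
  have key : ∀ (l : St) (g : ℕ → ℕ),
      ((ty l).all fun x => !isT x.1 || (ty (mrg s a b)).any fun y => isT y.1 &&
        Nat.beq y.2 (g x.2)) = true ↔
      ∀ x ∈ l, isT x.1 = true → ∃ y ∈ mrg s a b, isT y.1 = true ∧ y.2 = g x.2 := by
    intro l g
    rw [List.all_eq_true, ty_eq, ty_eq]
    constructor
    · intro h x hx hxT
      have h1 := h (fy x) (List.mem_map_of_mem hx)
      rw [isT_fy, hxT, Bool.not_true, Bool.false_or, List.any_eq_true] at h1
      obtain ⟨y', hy', h2⟩ := h1
      obtain ⟨y, hy, rfl⟩ := List.mem_map.1 hy'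
      rw [Bool.and_eq_true, isT_fy, fy_snd, fy_snd] at h2
      exact ⟨y, hy, h2.1, Nat.eq_of_beq_eq_true h2.2⟩
    · intro h x' hx'
      obtain ⟨x, hx, rfl⟩ := List.mem_map.1 hx'
      cases hxT : isT (fy x).1
      · rfl
      · rw [isT_fy] at hxT
        obtain ⟨y, hy, h2, h3⟩ := h x hx hxT
        rw [Bool.not_true, Bool.false_or, List.any_eq_true]
        refine ⟨fy y, List.mem_map_of_mem hy, ?_⟩
        rw [isT_fy, h2, fy_snd, fy_snd, h3, Bool.true_and]
        exact Nat.beq_refl _
  unfold opnB Opn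
  rw [mrg_ty, prs_ty, Bool.and_eq_true]
  exact and_congr (key a (fun n => unite (prs s a b) n)) (key b (fun n => unite (prs s a b) (n + 8)))

theorem zip_fst : ∀ r t : St, r.map Prod.fst = t.map Prod.fst →
    ∀ x ∈ r.zip t, x.2.1 = x.1.1 := by
  intro r
  induction r with
  | nil => intro t _ x hx; simp at hx
  | cons a r ih =>
    intro t ht x hx
    cases t with
    | nil => simp at hx
    | cons b t =>
      rw [List.map_cons, List.map_cons, List.cons.injEq] at ht
      rw [List.zip_cons_cons, List.mem_cons] at hx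
      rcases hx with rfl | hx
      · exact ht.1.symm
      · exact ih t ht.2 x hx

theorem crs_ty (r t : St) (hrt : r.map Prod.fst = t.map Prod.fst)
    (h : crsB (ty r) (ty t) = true) : Crs r t := by
  unfold crsB at h
  rw [Bool.and_eq_true, Bool.and_eq_true] at h
  obtain ⟨-, h3⟩ := h
  refine ⟨?_, zip_fst r t hrt, ?_⟩
  · have := congrArg List.length hrt
    rw [List.length_map, List.length_map] at this
    exact this.symm
  · intro x hx y hy hxT hyT hxy
    rw [ty_eq, ty_eq, List.zip_map, List.all_eq_true] at h3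
    have h4 := h3 (Prod.map fy fy x) (List.mem_map_of_mem hx)
    rw [List.all_eq_true] at h4
    have h5 := h4 (Prod.map fy fy y) (List.mem_map_of_mem hy)
    change (!(isT (fy x.1).1 && isT (fy y.1).1 && Nat.beq (fy x.1).2 (fy y.1).2) ||
      Nat.beq (fy x.2).2 (fy y.2).2) = true at h5
    rw [isT_fy, isT_fy, hxT, hyT] at h5
    change (!(true && true && Nat.beq x.1.2 y.1.2) || Nat.beq x.2.2 y.2.2) = true at h5
    rw [hxy, show Nat.beq y.1.2 y.1.2 = true from Nat.beq_refl _] at h5
    exact Nat.eq_of_beq_eq_true h5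

theorem fty : S_FTY := ⟨tys_eq, mrg_ty, opn_ty, crs_ty⟩

end Pool.Agent.W140.NS
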